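import Mathlib

/-!
The Mobius pattern complexity of a Boolean function can be exponential in its Mobius sparsity:
for every `k` the decision list `if x_1 = 0 then y_1 else if x_2 = 0 then y_2 else ... else y_{k+1}`
has Mobius sparsity exactly `2 k + 1` and at least `2 ^ (k + 1)` Mobius patterns.
-/

set_option autoImplicit false

namespace Pool.Agent.Results.MP_e3e9ef_lc.LinearExponent

open Finset

/-- The real number `1` or `0` of a truth value. -/
def bit (b : Bool) : ℝ := if b = true then 1 else 0

/-- The 0-1-vector of the set `T ⊆ [n]`. -/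
def ind {n : ℕ} (T : Finset (Fin n)) : Fin n → Bool := fun i => decide (i ∈ T)

/-- `AND_S(x) = ∏_{i ∈ S} x_i`. -/
def AND {n : ℕ} (S : Finset (Fin n)) (x : Fin n → Bool) : Bool := decide (∀ i ∈ S, x i = true)

/-- The Mobius coefficient `c_S` of `f`: `c_S = ∑_{T ⊆ S} (-1)^(|S| - |T|) f(1_T)`. By `coeff_spec`
and `coeff_unique` these are the coefficients of the unique representation of `f` in the basis
of the functions `AND_S`. -/
noncomputable def coeff {n : ℕ} (f : (Fin n → Bool) → Bool) (S : Finset (Fin n)) : ℝ :=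
  ∑ T ∈ S.powerset, (-1) ^ (S.card - T.card) * bit (f (ind T))

open Classical in
/-- The Mobius support of `f`. -/
noncomputable def supp {n : ℕ} (f : (Fin n → Bool) → Bool) : Finset (Finset (Fin n)) :=
  univ.filter (fun S => coeff f S ≠ 0)

/-- The Mobius sparsity of `f`. -/
noncomputable def spar {n : ℕ} (f : (Fin n → Bool) → Bool) : ℕ := (supp f).card

/-- The Mobius pattern of `x` with respect to `f`: the vector of the `AND_S(x)`, `S` in the Mobius
support of `f`. -/
noncomputable def pattern {n : ℕ} (f : (Fin n → Bool) → Bool) (x : Fin n → Bool) :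
    {S // S ∈ supp f} → Bool := fun S => AND S.1 x

open Classical in
/-- The Mobius pattern complexity of `f`: the number of distinct Mobius patterns. -/
noncomputable def Pat {n : ℕ} (f : (Fin n → Bool) → Bool) : ℕ :=
  (univ.image (pattern f)).card

/-! ### The Mobius representation -/

lemma AND_ind {n : ℕ} (S T : Finset (Fin n)) : AND S (ind T) = decide (S ⊆ T) := by
  simp [AND, ind, Finset.subset_iff]

lemma ind_filter {n : ℕ} (x : Fin n → Bool) : ind (univ.filter (fun i => x i = true)) = x := by
  funext i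
  simp [ind]

lemma sum_bit_AND {n : ℕ} (c : Finset (Fin n) → ℝ) (T : Finset (Fin n)) :
    ∑ S, c S * bit (AND S (ind T)) = ∑ S ∈ T.powerset, c S := by
  have h : T.powerset = univ.filter (fun S => S ⊆ T) := by
    ext S; simp
  rw [h, Finset.sum_filter]
  refine Finset.sum_congr rfl fun S _ => ?_
  rw [AND_ind]
  by_cases h : S ⊆ T <;> simp [bit, h]

lemma sum_interval {n : ℕ} (U T : Finset (Fin n)) (hU : U ⊆ T) :
    ∑ S ∈ T.powerset.filter (fun S => U ⊆ S), (-1 : ℝ) ^ (S.card - U.card) =
      if U = T then 1 else 0 := by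
  have h1 : ∑ S ∈ T.powerset.filter (fun S => U ⊆ S), (-1 : ℝ) ^ (S.card - U.card) =
      ∑ W ∈ (T \ U).powerset, (-1 : ℝ) ^ W.card := by
    refine Finset.sum_bij' (fun S _ => S \ U) (fun W _ => W ∪ U) ?_ ?_ ?_ ?_ ?_
    · intro S hS
      simp only [mem_filter, mem_powerset] at hS ⊢
      exact Finset.sdiff_subset_sdiff hS.1 (Finset.Subset.refl _)
    · intro W hW
      simp only [mem_filter, mem_powerset] at hW ⊢
      refine ⟨Finset.union_subset (hW.trans Finset.sdiff_subset) hU, Finset.subset_union_right⟩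
    · intro S hS
      simp only [mem_filter, mem_powerset] at hS
      exact Finset.sdiff_union_of_subset hS.2
    · intro W hW
      simp only [mem_powerset] at hW
      rw [Finset.union_sdiff_right]
      apply Finset.sdiff_eq_self_of_disjoint
      exact Finset.disjoint_of_subset_left hW Finset.sdiff_disjoint
    · intro S hS
      simp only [mem_filter, mem_powerset] at hS
      rw [Finset.card_sdiff_of_subset hS.2]
  rw [h1]
  have h2 := Finset.sum_powerset_neg_one_pow_card (x := T \ U)
  have h3 : ∑ W ∈ (T \ U).powerset, (-1 : ℝ) ^ W.card =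
      ((∑ W ∈ (T \ U).powerset, (-1 : ℤ) ^ W.card : ℤ) : ℝ) := by push_cast; rfl
  rw [h3, h2]
  by_cases h : U = T
  · subst h
    simp
  · rw [if_neg h, if_neg]
    · simp
    · intro h4
      rw [Finset.sdiff_eq_empty_iff_subset] at h4
      exact h (Finset.Subset.antisymm hU h4)

/-- The Mobius coefficients represent `f` in the basis of the functions `AND_S`. -/
theorem coeff_spec {n : ℕ} (f : (Fin n → Bool) → Bool) (x : Fin n → Bool) :
    bit (f x) = ∑ S, coeff f S * bit (AND S x) := by
  obtain ⟨T, rfl⟩ : ∃ T, ind T = x := ⟨_, ind_filter x⟩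
  rw [sum_bit_AND]
  unfold coeff
  have h1 : ∑ S ∈ T.powerset, ∑ U ∈ S.powerset, (-1 : ℝ) ^ (S.card - U.card) * bit (f (ind U)) =
      ∑ U ∈ T.powerset, ∑ S ∈ T.powerset.filter (fun S => U ⊆ S),
        (-1 : ℝ) ^ (S.card - U.card) * bit (f (ind U)) := by
    apply Finset.sum_comm'
    intro S U
    simp only [mem_powerset, mem_filter]
    constructor
    · rintro ⟨h1, h2⟩
      exact ⟨⟨h1, h2⟩, h2.trans h1⟩
    · rintro ⟨⟨h1, h2⟩, _⟩
      exact ⟨h1, h2⟩
  rw [h1]
  have h2 : ∀ U ∈ T.powerset, ∑ S ∈ T.powerset.filter (fun S => U ⊆ S),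
        (-1 : ℝ) ^ (S.card - U.card) * bit (f (ind U)) =
        if U = T then bit (f (ind U)) else 0 := by
    intro U hU
    rw [← Finset.sum_mul, sum_interval U T (mem_powerset.1 hU)]
    split_ifs <;> simp
  rw [Finset.sum_congr rfl h2, Finset.sum_ite_eq' T.powerset T (fun U => bit (f (ind U)))]
  simp

/-- The representation of `f` in the basis of the functions `AND_S` is unique. -/
theorem coeff_unique {n : ℕ} (f : (Fin n → Bool) → Bool) (c : Finset (Fin n) → ℝ)
    (h : ∀ x, bit (f x) = ∑ S, c S * bit (AND S x)) : ∀ S, coeff f S = c S := by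
  have key : ∀ T : Finset (Fin n), ∑ S ∈ T.powerset, (coeff f S - c S) = 0 := by
    intro T
    rw [Finset.sum_sub_distrib, ← sum_bit_AND, ← sum_bit_AND, ← coeff_spec, ← h, sub_self]
  intro S
  induction S using Finset.strongInduction with
  | H S ih =>
    have h1 := key S
    rw [← Finset.sum_erase_add _ _ (Finset.mem_powerset_self S)] at h1
    rw [Finset.sum_eq_zero, zero_add] at h1
    · linarith
    · intro T hT
      rw [Finset.mem_erase, Finset.mem_powerset] at hT
      rw [ih T (Finset.ssubset_iff_subset_ne.2 ⟨hT.2, hT.1⟩), sub_self]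

/-! ### The decision list -/

/-- the decision list `if x 0 = 0 then y 0 else if x 1 = 0 then y 1 else ... else y k` -/
def DL : ℕ → (ℕ → Bool) → (ℕ → Bool) → Bool
  | 0, _, y => y 0
  | k + 1, x, y => if x 0 = true then DL k (fun i => x (i + 1)) (fun i => y (i + 1)) else y 0

lemma bit_and (a b : Bool) : bit (a && b) = bit a * bit b := by
  cases a <;> cases b <;> simp [bit]

/-- conjunction of the first `i` bits -/
def pre (x : ℕ → Bool) : ℕ → Bool
  | 0 => true
  | i + 1 => x 0 && pre (fun j => x (j + 1)) i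

lemma pre_iff (i : ℕ) : ∀ x : ℕ → Bool, pre x i = true ↔ ∀ j < i, x j = true := by
  induction i with
  | zero => intro x; simp [pre]
  | succ i ih =>
    intro x
    simp only [pre, Bool.and_eq_true, ih]
    constructor
    · rintro ⟨h0, h1⟩ j hj
      cases j with
      | zero => exact h0
      | succ j => exact h1 j (by omega)
    · intro h
      exact ⟨h 0 (by omega), fun j hj => h (j + 1) (by omega)⟩

lemma DL_expand (k : ℕ) : ∀ x y : ℕ → Bool, bit (DL k x y) =
    ∑ i ∈ range (k + 1), bit (pre x i) * bit (y i) -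
      ∑ i ∈ range k, bit (pre x (i + 1)) * bit (y i) := by
  induction k with
  | zero =>
    intro x y
    have h : bit true = 1 := by simp [bit]
    simp [DL, pre, h]
  | succ k ih =>
    intro x y
    rw [Finset.sum_range_succ' (fun i => bit (pre x i) * bit (y i)) (k + 1),
      Finset.sum_range_succ' (fun i => bit (pre x (i + 1)) * bit (y i)) k]
    have h1 : ∑ i ∈ range (k + 1), bit (pre x (i + 1)) * bit (y (i + 1)) =
        bit (x 0) * ∑ i ∈ range (k + 1), bit (pre (fun j => x (j + 1)) i) * bit (y (i + 1)) := by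
      rw [Finset.mul_sum]
      refine Finset.sum_congr rfl fun i _ => ?_
      simp only [pre, bit_and]
      ring
    have h2 : ∑ i ∈ range k, bit (pre x (i + 1 + 1)) * bit (y (i + 1)) =
        bit (x 0) * ∑ i ∈ range k, bit (pre (fun j => x (j + 1)) (i + 1)) * bit (y (i + 1)) := by
      rw [Finset.mul_sum]
      refine Finset.sum_congr rfl fun i _ => ?_
      rw [show pre x (i + 1 + 1) = (x 0 && pre (fun j => x (j + 1)) (i + 1)) from rfl, bit_and]
      ring
    rw [h1, h2]
    have h3 := ih (fun j => x (j + 1)) (fun j => y (j + 1))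
    have h4 : bit (pre x 0) = 1 := by simp [pre, bit]
    have h5 : bit (pre x (0 + 1)) = bit (x 0) := by simp [pre]
    rw [h4, h5]
    cases hx : x 0 with
    | false => simp [DL, hx, bit]
    | true =>
      have e : DL (k + 1) x y = DL k (fun i => x (i + 1)) (fun i => y (i + 1)) := by
        simp [DL, hx]
      rw [e, h3]
      simp only [bit, if_true]
      ring

/-- extension of a vector by `false` -/
def ext {n : ℕ} (z : Fin n → Bool) (i : ℕ) : Bool := if h : i < n then z ⟨i, h⟩ else false

/-- the decision list as a function on `{0,1}^(2k+1)`; the variables are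
`x_1, …, x_k, y_1, …, y_(k+1)` in this order -/
def f (k : ℕ) (z : Fin (2 * k + 1) → Bool) : Bool := DL k (ext z) (fun i => ext z (k + i))

/-- the sets `{x_1, …, x_i, y_j}` -/
def mon (k i j : ℕ) : Finset (Fin (2 * k + 1)) :=
  univ.filter (fun v => v.val < i ∨ v.val = k + j)

lemma bit_AND_mon (k i j : ℕ) (hi : i ≤ k) (hj : j ≤ k) (z : Fin (2 * k + 1) → Bool) :
    bit (AND (mon k i j) z) = bit (pre (ext z) i) * bit (ext z (k + j)) := by
  rw [← bit_and]
  congr 1
  rw [Bool.eq_iff_iff, Bool.and_eq_true, pre_iff]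
  unfold AND mon
  rw [decide_eq_true_iff]
  constructor
  · intro h
    constructor
    · intro l hl
      have hlt : l < 2 * k + 1 := by omega
      have := h ⟨l, hlt⟩ (by simp [hl])
      simpa [ext, hlt] using this
    · have hlt : k + j < 2 * k + 1 := by omega
      have := h ⟨k + j, hlt⟩ (by simp)
      simpa [ext, hlt] using this
  · rintro ⟨h1, h2⟩ v hv
    rw [mem_filter] at hv
    rcases hv.2 with h3 | h3
    · have := h1 v.val h3
      simpa [ext, v.2] using this
    · have : ext z v.val = true := by rw [h3]; exact h2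
      simpa [ext, v.2] using this

lemma mon_inj (k i j i' j' : ℕ) (hi : i ≤ k) (hj : j ≤ k) (hi' : i' ≤ k) (hj' : j' ≤ k)
    (h : mon k i j = mon k i' j') : i = i' ∧ j = j' := by
  have hmem : ∀ v : Fin (2 * k + 1), (v.val < i ∨ v.val = k + j) ↔
      (v.val < i' ∨ v.val = k + j') := by
    intro v
    have := Finset.ext_iff.1 h v
    simpa [mon] using this
  have hjj : j = j' := by
    have h1 := (hmem ⟨k + j, by omega⟩).1 (Or.inr rfl)
    simp only at h1
    omega
  subst hjj
  refine ⟨?_, rfl⟩
  rcases lt_trichotomy i i' with hlt | heq | hgt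
  · have h1 := (hmem ⟨i, by omega⟩).2 (Or.inl hlt)
    simp only at h1
    have h2 : i = k + j := by omega
    omega
  · exact heq
  · have h1 := (hmem ⟨i', by omega⟩).1 (Or.inl hgt)
    simp only at h1
    omega

/-- the Mobius coefficients of the decision list -/
noncomputable def co (k : ℕ) (S : Finset (Fin (2 * k + 1))) : ℝ :=
  ∑ i ∈ range (k + 1), (if S = mon k i i then 1 else 0) -
    ∑ i ∈ range k, (if S = mon k (i + 1) i then 1 else 0)

lemma f_expand (k : ℕ) (z : Fin (2 * k + 1) → Bool) :
    bit (f k z) = ∑ S, co k S * bit (AND S z) := by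
  unfold f co
  rw [DL_expand]
  simp only [sub_mul, Finset.sum_sub_distrib, Finset.sum_mul]
  congr 1
  · rw [Finset.sum_comm]
    refine Finset.sum_congr rfl fun i hi => ?_
    rw [mem_range] at hi
    simp only [ite_mul, one_mul, zero_mul]
    rw [Finset.sum_ite_eq' univ (mon k i i)]
    simp only [mem_univ, if_true]
    exact (bit_AND_mon k i i (by omega) (by omega) z).symm
  · rw [Finset.sum_comm]
    refine Finset.sum_congr rfl fun i hi => ?_
    rw [mem_range] at hi
    simp only [ite_mul, one_mul, zero_mul]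
    rw [Finset.sum_ite_eq' univ (mon k (i + 1) i)]
    simp only [mem_univ, if_true]
    exact (bit_AND_mon k (i + 1) i (by omega) (by omega) z).symm

lemma co_mon (k i : ℕ) (hi : i ≤ k) : co k (mon k i i) = 1 := by
  unfold co
  have h1 : ∑ j ∈ range (k + 1), (if mon k i i = mon k j j then (1 : ℝ) else 0) = 1 := by
    rw [Finset.sum_eq_single_of_mem i (mem_range.2 (by omega))]
    · simp
    · intro j hj hne
      rw [mem_range] at hj
      rw [if_neg]
      intro h
      exact hne (mon_inj k i i j j hi hi (by omega) (by omega) h).1.symm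
  have h2 : ∑ j ∈ range k, (if mon k i i = mon k (j + 1) j then (1 : ℝ) else 0) = 0 := by
    refine Finset.sum_eq_zero fun j hj => ?_
    rw [mem_range] at hj
    rw [if_neg]
    intro h
    have := mon_inj k i i (j + 1) j hi hi (by omega) (by omega) h
    omega
  rw [h1, h2, sub_zero]

lemma co_mon' (k i : ℕ) (hi : i < k) : co k (mon k (i + 1) i) = -1 := by
  unfold co
  have h1 : ∑ j ∈ range (k + 1), (if mon k (i + 1) i = mon k j j then (1 : ℝ) else 0) = 0 := by
    refine Finset.sum_eq_zero fun j hj => ?_
    rw [mem_range] at hj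
    rw [if_neg]
    intro h
    have := mon_inj k (i + 1) i j j (by omega) (by omega) (by omega) (by omega) h
    omega
  have h2 : ∑ j ∈ range k, (if mon k (i + 1) i = mon k (j + 1) j then (1 : ℝ) else 0) = 1 := by
    rw [Finset.sum_eq_single_of_mem i (mem_range.2 (by omega))]
    · simp
    · intro j hj hne
      rw [mem_range] at hj
      rw [if_neg]
      intro h
      exact hne (mon_inj k (i + 1) i (j + 1) j (by omega) (by omega) (by omega) (by omega) h).2.symm
  rw [h1, h2, zero_sub]

lemma co_eq_zero (k : ℕ) (S : Finset (Fin (2 * k + 1))) (h1 : ∀ i ≤ k, S ≠ mon k i i)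
    (h2 : ∀ i < k, S ≠ mon k (i + 1) i) : co k S = 0 := by
  unfold co
  rw [Finset.sum_eq_zero, Finset.sum_eq_zero, sub_zero]
  · intro i hi
    rw [mem_range] at hi
    rw [if_neg (h2 i hi)]
  · intro i hi
    rw [mem_range] at hi
    rw [if_neg (h1 i (by omega))]

theorem supp_f (k : ℕ) : supp (f k) =
    (range (k + 1)).image (fun i => mon k i i) ∪ (range k).image (fun i => mon k (i + 1) i) := by
  ext S
  unfold supp
  rw [mem_filter, coeff_unique (f k) (co k) (f_expand k) S, mem_union, mem_image, mem_image]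
  constructor
  · rintro ⟨_, h⟩
    by_contra hcon
    push Not at hcon
    apply h
    apply co_eq_zero
    · intro i hi heq
      exact hcon.1 i (mem_range.2 (by omega)) heq.symm
    · intro i hi heq
      exact hcon.2 i (mem_range.2 (by omega)) heq.symm
  · rintro (⟨i, hi, rfl⟩ | ⟨i, hi, rfl⟩)
    · rw [mem_range] at hi
      exact ⟨mem_univ _, by rw [co_mon k i (by omega)]; norm_num⟩
    · rw [mem_range] at hi
      exact ⟨mem_univ _, by rw [co_mon' k i hi]; norm_num⟩

/-- The Mobius sparsity of the decision list is `2 k + 1`. -/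
theorem spar_f (k : ℕ) : spar (f k) = 2 * k + 1 := by
  unfold spar
  rw [supp_f, Finset.card_union_of_disjoint, Finset.card_image_of_injOn, Finset.card_image_of_injOn]
  · simp; omega
  · intro i hi j hj h
    simp only [coe_range, Set.mem_Iio] at hi hj
    exact (mon_inj k _ _ _ _ (by omega) (by omega) (by omega) (by omega) h).2
  · intro i hi j hj h
    simp only [coe_range, Set.mem_Iio] at hi hj
    exact (mon_inj k _ _ _ _ (by omega) (by omega) (by omega) (by omega) h).2
  · rw [Finset.disjoint_left]
    rintro S hS hS'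
    rw [mem_image] at hS hS'
    obtain ⟨i, hi, rfl⟩ := hS
    obtain ⟨j, hj, h⟩ := hS'
    rw [mem_range] at hi hj
    have := mon_inj k _ _ _ _ (by omega) (by omega) (by omega) (by omega) h
    omega

/-- the input with `x = 1…1` and the given `y` -/
def inp (k : ℕ) (y : Fin (k + 1) → Bool) (v : Fin (2 * k + 1)) : Bool :=
  if h : v.val < k then true else y ⟨v.val - k, by omega⟩

/-- The decision list has at least `2 ^ (k + 1)` Mobius patterns. -/
theorem pat_f (k : ℕ) : 2 ^ (k + 1) ≤ Pat (f k) := by
  classical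
  have hinj : Function.Injective (fun y : Fin (k + 1) → Bool => pattern (f k) (inp k y)) := by
    intro y y' h
    funext i
    have hmem : mon k i i ∈ supp (f k) := by
      rw [supp_f]
      exact mem_union_left _ (mem_image.2 ⟨i, mem_range.2 i.2, rfl⟩)
    have h1 := congrFun h ⟨mon k i i, hmem⟩
    simp only [pattern] at h1
    have h2 : ∀ y : Fin (k + 1) → Bool, AND (mon k i i) (inp k y) = y i := by
      intro y
      rw [Bool.eq_iff_iff]
      unfold AND
      rw [decide_eq_true_iff]
      constructor
      · intro h3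
        have hlt : k + i.val < 2 * k + 1 := by omega
        have := h3 ⟨k + i.val, hlt⟩ (by simp [mon])
        unfold inp at this
        rw [dif_neg (by simp)] at this
        simpa using this
      · intro h3 v hv
        simp only [mon, mem_filter, mem_univ, true_and] at hv
        unfold inp
        split_ifs with h4
        · rfl
        · have h5 : v.val = k + i.val := by omega
          have h6 : (⟨v.val - k, by omega⟩ : Fin (k + 1)) = i := by
            apply Fin.ext
            simp [h5]
          rw [h6]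
          exact h3
    rw [h2, h2] at h1
    exact h1
  have h1 : (univ.image (fun y : Fin (k + 1) → Bool => pattern (f k) (inp k y))).card =
      2 ^ (k + 1) := by
    rw [Finset.card_image_of_injective _ hinj]
    simp
  unfold Pat
  rw [← h1]
  apply Finset.card_le_card
  intro p hp
  rw [mem_image] at hp ⊢
  obtain ⟨y, _, rfl⟩ := hp
  exact ⟨inp k y, mem_univ _, rfl⟩

/-- For every `k` there is a Boolean function of `2 k + 1` variables with Mobius sparsity `2 k + 1`
and at least `2 ^ (k + 1)` Mobius patterns. Consequently, for every `δ > 0` and `C > 0` there are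
`n` and a Boolean function `f` on `{0,1}^n` with `Pat(f) > 2 ^ (C · spar(f) ^ (1 - δ))`. -/
theorem result :
    (∀ k : ℕ, ∃ g : (Fin (2 * k + 1) → Bool) → Bool,
      spar g = 2 * k + 1 ∧ 2 ^ (k + 1) ≤ Pat g) ∧
    (∀ δ : ℝ, 0 < δ → ∀ C : ℝ, 0 < C → ∃ n : ℕ, ∃ g : (Fin n → Bool) → Bool,
      (2 : ℝ) ^ (C * (spar g : ℝ) ^ (1 - δ)) < (Pat g : ℝ)) := by
  refine ⟨fun k => ⟨f k, spar_f k, pat_f k⟩, ?_⟩
  intro δ hδ C hC
  -- choose k with 2 * C < (2k+1)^δ
  have h1 : Filter.Tendsto (fun k : ℕ => ((2 * k + 1 : ℕ) : ℝ) ^ δ) Filter.atTop Filter.atTop := by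
    refine (tendsto_rpow_atTop hδ).comp ?_
    refine tendsto_natCast_atTop_atTop.comp ?_
    refine Filter.tendsto_atTop_mono (fun k => ?_) Filter.tendsto_id
    simp only [id]
    omega
  obtain ⟨k, hk⟩ := (h1.eventually (Filter.eventually_gt_atTop (2 * C))).exists
  refine ⟨2 * k + 1, f k, ?_⟩
  rw [spar_f]
  set s : ℝ := ((2 * k + 1 : ℕ) : ℝ) with hs
  have hs0 : 0 < s := by rw [hs]; positivity
  have h2 : C * s ^ (1 - δ) < (k + 1 : ℕ) := by
    rw [Real.rpow_sub hs0, Real.rpow_one]
    have hp : 0 < s ^ δ := Real.rpow_pos_of_pos hs0 δ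
    rw [mul_div_assoc', div_lt_iff₀ hp]
    have h3 : s < 2 * ((k + 1 : ℕ) : ℝ) := by
      rw [hs]; push_cast; linarith
    have h4 : (0 : ℝ) < ((k + 1 : ℕ) : ℝ) := by positivity
    calc C * s < C * (2 * ((k + 1 : ℕ) : ℝ)) := mul_lt_mul_of_pos_left h3 hC
      _ = ((k + 1 : ℕ) : ℝ) * (2 * C) := by ring
      _ < ((k + 1 : ℕ) : ℝ) * s ^ δ := mul_lt_mul_of_pos_left hk h4
  calc (2 : ℝ) ^ (C * s ^ (1 - δ)) < (2 : ℝ) ^ (((k + 1 : ℕ) : ℝ)) :=
        Real.rpow_lt_rpow_of_exponent_lt (by norm_num) h2
    _ = ((2 ^ (k + 1) : ℕ) : ℝ) := by rw [Real.rpow_natCast]; push_cast; rfl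
    _ ≤ (Pat (f k) : ℝ) := by exact_mod_cast pat_f k

end Pool.Agent.Results.MP_e3e9ef_lc.LinearExponent
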